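import Mathlib
import Pool.Agent.N753.DR.Stm6
import Pool.Agent.N262.DR.Deg
import Pool.Agent.N459.DR.Red

set_option autoImplicit false

/-!
# Project PC (helper753), part CNT: the number of points of degree `r`
-/

namespace Pool.Agent.N130.PC.Cnt

open NumberField IsDedekindDomain Module Polynomial Pool.Agent.N753.DR Pool.Agent.N262.DR

/-- **PC/CNT** -/
theorem t : StmCntAll := by
  intro K _ _ r hr
  obtain ⟨Bad, C0, hC0, hR⟩ := Pool.Agent.N459.DR.t K r hr
  set n : ℝ := (finrank ℚ K : ℝ) with hn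
  have hn0 : 0 < n := by
    rw [hn]; exact_mod_cast (Module.finrank_pos : 0 < finrank ℚ K)
  set c0 : ℝ := max C0 1 with hc0
  have hc01 : 1 ≤ c0 := le_max_right _ _
  refine ⟨(5 * c0) ^ (finrank ℚ K * (r + 1)), by positivity, fun U hU => ?_⟩
  set y : ℝ := Real.exp (U / n) with hy
  have hy1 : 1 ≤ y := Real.one_le_exp (by positivity)
  set B : ℕ := ⌈c0 * y⌉₊ with hB
  have hBl : c0 * y ≤ B := Nat.le_ceil _
  have hcy : 1 ≤ c0 * y := one_le_mul_of_one_le_of_one_le hc01 hy1
  have hBu : (B : ℝ) ≤ 2 * (c0 * y) := by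
    have := Nat.ceil_lt_add_one (a := c0 * y) (by positivity)
    linarith
  have hsub : {p : K[X] | AtH r U p} ⊆ gp '' (Bx K (r + 1) B) := by
    rintro p ⟨M, _, _, _, x, hM, hx, hxp, hht⟩
    obtain ⟨c, l, hl, hcl, -, hsz⟩ := hR M x hM hx
    have hxint : IsIntegral K x := by
      have : FiniteDimensional K M := Module.Finite.of_restrictScalars_finite ℚ K M
      exact IsIntegral.of_finite K x
    refine ⟨c, fun j => ?_, ?_⟩
    · have h4 := hsz j
      have h5 : Real.exp (Height.logHeight₁ x / n) ≤ y :=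
        Real.exp_le_exp.mpr (div_le_div_of_nonneg_right hht hn0.le)
      have h6 : (sz (c j) : ℝ) ≤ B := by
        refine h4.trans (le_trans ?_ hBl)
        exact mul_le_mul (le_max_left _ _) h5 (Real.exp_pos _).le (by positivity)
      exact_mod_cast h6
    · rw [← hxp]
      exact gp_eq (minpoly.monic hxint) hx hl hcl
  have hBf := Bx_finite (K := K) (r + 1) B
  have hfin : (gp '' (Bx K (r + 1) B)).Finite := hBf.image _
  refine ⟨hfin.subset hsub, ?_⟩
  have h4 : {p : K[X] | AtH r U p}.ncard ≤ (2 * B + 1) ^ (finrank ℚ K * (r + 1)) :=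
    (Set.ncard_le_ncard hsub hfin).trans ((Set.ncard_image_le hBf).trans (Bx_card (r + 1) B))
  have h5 : ({p : K[X] | AtH r U p}.ncard : ℝ) ≤
      (2 * (B : ℝ) + 1) ^ (finrank ℚ K * (r + 1)) := by exact_mod_cast h4
  have h6 : (2 * (B : ℝ) + 1) ^ (finrank ℚ K * (r + 1)) ≤
      (5 * c0 * y) ^ (finrank ℚ K * (r + 1)) := by
    refine pow_le_pow_left₀ (by positivity) ?_ _
    nlinarith
  refine (h5.trans h6).trans (le_of_eq ?_)
  rw [mul_pow (5 * c0) y]
  congr 1
  rw [hy, ← Real.exp_nat_mul]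
  congr 1
  push_cast
  rw [← hn]
  field_simp

end Pool.Agent.N130.PC.Cnt
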