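import Mathlib
import Pool.Agent.N753.DR.Stm6

set_option autoImplicit false

/-!
# Project PC (helper753), part ROOT: where a polynomial is small there is a zero
-/

namespace Pool.Agent.N130.PC.Root

open Polynomial Pool.Agent.N753.DR

theorem coeff_prod (s : Multiset ℂ) : ∀ j : ℕ,
    ‖((s.map fun y => (X - C y : ℂ[X])).prod).coeff j‖ ≤ (s.map fun y => 1 + ‖y‖).prod := by
  induction s using Multiset.induction_on with
  | empty =>
    intro j
    rw [Multiset.map_zero, Multiset.prod_zero, Multiset.map_zero, Multiset.prod_zero, coeff_one]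
    split_ifs <;> simp
  | cons a s ih =>
    intro j
    rw [Multiset.map_cons, Multiset.prod_cons, Multiset.map_cons, Multiset.prod_cons, sub_mul,
      coeff_sub, coeff_C_mul, add_mul, one_mul]
    refine (norm_sub_le _ _).trans (add_le_add ?_ ?_)
    · cases j with
      | zero =>
        rw [mul_comm, coeff_mul_X_zero, norm_zero]
        exact Multiset.prod_nonneg (by
          intro x hx
          obtain ⟨y, -, rfl⟩ := Multiset.mem_map.1 hx
          positivity)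
      | succ j =>
        rw [mul_comm, coeff_mul_X]
        exact ih j
    · rw [norm_mul]
      exact mul_le_mul_of_nonneg_left (ih j) (norm_nonneg _)

theorem norm_eval_prod (s : Multiset ℂ) (z : ℂ) :
    ‖((s.map fun y => (X - C y : ℂ[X])).prod).eval z‖ = (s.map fun y => ‖z - y‖).prod := by
  induction s using Multiset.induction_on with
  | empty => simp
  | cons a s ih =>
    rw [Multiset.map_cons, Multiset.prod_cons, Multiset.map_cons, Multiset.prod_cons, eval_mul,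
      norm_mul, ih, eval_sub, eval_X, eval_C]

/-- products over multisets -/
theorem prod_le (s : Multiset ℂ) (F G : ℂ → ℝ) (hF : ∀ y ∈ s, 0 ≤ F y)
    (h : ∀ y ∈ s, F y ≤ G y) : 0 ≤ (s.map F).prod ∧ (s.map F).prod ≤ (s.map G).prod := by
  induction s using Multiset.induction_on with
  | empty => simp
  | cons a s ih =>
    obtain ⟨h1, h2⟩ := ih (fun y hy => hF y (Multiset.mem_cons_of_mem hy))
      (fun y hy => h y (Multiset.mem_cons_of_mem hy))
    have h3 := hF a (Multiset.mem_cons_self a s)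
    have h4 := h a (Multiset.mem_cons_self a s)
    rw [Multiset.map_cons, Multiset.prod_cons, Multiset.map_cons, Multiset.prod_cons]
    exact ⟨mul_nonneg h3 h1, mul_le_mul h4 h2 h1 (h3.trans h4)⟩

/-- a zero or infinity is near -/
theorem near_zero (q : ℕ) (h : ℂ[X]) (z : ℂ) (δ η : ℝ) (hq : h.natDegree ≤ q) (hη : 0 < η)
    (hc : ∃ j, 1 ≤ ‖h.coeff j‖) (hz : ‖h.eval z‖ ≤ δ * max 1 ‖z‖ ^ q)
    (hηδ : 2 ^ q * δ < η ^ q) (hδ : 0 < δ) :
    (∃ y : ℂ, h.eval y = 0 ∧ ‖z - y‖ ≤ η * (max 1 ‖z‖ * max 1 ‖y‖)) ∨ 1 ≤ η * max 1 ‖z‖ := by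
  by_contra hcon
  push Not at hcon
  obtain ⟨h1, h2⟩ := hcon
  obtain ⟨j, hj⟩ := hc
  have hne : h ≠ 0 := by
    rintro rfl
    rw [coeff_zero, norm_zero] at hj
    linarith
  set m : ℝ := max 1 ‖z‖ with hm
  have hm1 : 1 ≤ m := le_max_left _ _
  have hm0 : 0 < m := by linarith
  have hfac : h = C h.leadingCoeff * (h.roots.map fun y => (X - C y : ℂ[X])).prod :=
    (IsAlgClosed.splits h).eq_prod_roots
  have hcard : h.roots.card = h.natDegree := (splits_iff_card_roots.1 (IsAlgClosed.splits h))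
  set e : ℕ := h.natDegree with he
  set P : ℝ := (h.roots.map fun y => max 1 ‖y‖).prod with hP
  have hroot : ∀ y ∈ h.roots, h.eval y = 0 := fun y hy => (mem_roots hne).1 hy
  -- the coefficients
  have h3 : 1 ≤ ‖h.leadingCoeff‖ * (2 ^ e * P) := by
    have h4 : ‖h.coeff j‖ ≤ ‖h.leadingCoeff‖ * (h.roots.map fun y => 1 + ‖y‖).prod := by
      conv_lhs => rw [hfac]
      rw [coeff_C_mul, norm_mul]
      exact mul_le_mul_of_nonneg_left (coeff_prod _ j) (norm_nonneg _)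
    have h5 : (h.roots.map fun y => 1 + ‖y‖).prod ≤ 2 ^ e * P := by
      refine (prod_le h.roots (fun y => 1 + ‖y‖) (fun y => 2 * max 1 ‖y‖)
        (fun y _ => by positivity) (fun y _ => ?_)).2.trans (le_of_eq ?_)
      · have h6 : (1 : ℝ) ≤ max 1 ‖y‖ := le_max_left _ _
        have h7 : ‖y‖ ≤ max 1 ‖y‖ := le_max_right _ _
        linarith
      · rw [Multiset.prod_map_mul, Multiset.map_const', Multiset.prod_replicate, hcard]
    exact hj.trans (h4.trans (mul_le_mul_of_nonneg_left h5 (norm_nonneg _)))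
  -- the value
  have h6 : ‖h.leadingCoeff‖ * (η ^ e * m ^ e * P) ≤ ‖h.eval z‖ := by
    have h7 : ‖h.eval z‖ = ‖h.leadingCoeff‖ * (h.roots.map fun y => ‖z - y‖).prod := by
      conv_lhs => rw [hfac]
      rw [eval_mul, eval_C, norm_mul, norm_eval_prod]
    rw [h7]
    refine mul_le_mul_of_nonneg_left ?_ (norm_nonneg _)
    refine le_trans (le_of_eq ?_) (prod_le h.roots (fun y => (η * m) * max 1 ‖y‖)
      (fun y => ‖z - y‖) (fun y _ => by positivity) (fun y hy => ?_)).2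
    · rw [Multiset.prod_map_mul, Multiset.map_const', Multiset.prod_replicate, hcard, mul_pow]
    · have h8 := h1 y (hroot y hy)
      rw [← mul_assoc] at h8
      exact h8.le
  have hP0 : 0 ≤ P := (prod_le h.roots (fun y => max 1 ‖y‖) (fun y => max 1 ‖y‖)
    (fun y _ => by positivity) (fun y _ => le_rfl)).1
  obtain ⟨t, ht⟩ := Nat.exists_eq_add_of_le hq
  have h9 : ‖h.leadingCoeff‖ * P * η ^ q ≤ δ := by
    have h10 : (‖h.leadingCoeff‖ * P * η ^ q) * m ^ e ≤ δ * m ^ e := by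
      calc (‖h.leadingCoeff‖ * P * η ^ q) * m ^ e
          = (‖h.leadingCoeff‖ * (η ^ e * m ^ e * P)) * η ^ t := by rw [ht, pow_add]; ring
        _ ≤ (δ * m ^ q) * η ^ t := mul_le_mul_of_nonneg_right (h6.trans hz) (by positivity)
        _ = δ * m ^ e * (η * m) ^ t := by rw [ht, pow_add, mul_pow]; ring
        _ ≤ δ * m ^ e * 1 := by
            refine mul_le_mul_of_nonneg_left ?_ (by positivity)
            exact pow_le_one₀ (by positivity) h2.le
        _ = δ * m ^ e := mul_one _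
    exact le_of_mul_le_mul_right h10 (by positivity)
  have h11 : η ^ q ≤ 2 ^ q * δ := by
    calc η ^ q = 1 * η ^ q := (one_mul _).symm
      _ ≤ (‖h.leadingCoeff‖ * (2 ^ e * P)) * η ^ q :=
          mul_le_mul_of_nonneg_right h3 (by positivity)
      _ = 2 ^ e * (‖h.leadingCoeff‖ * P * η ^ q) := by ring
      _ ≤ 2 ^ e * δ := mul_le_mul_of_nonneg_left h9 (by positivity)
      _ ≤ 2 ^ q * δ := mul_le_mul_of_nonneg_right
          (pow_le_pow_right₀ (by norm_num) hq) hδ.le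
  linarith

theorem pow_sub_le (a b : ℂ) (ha : ‖a‖ ≤ 1) (hb : ‖b‖ ≤ 1) (k : ℕ) :
    ‖a ^ k - b ^ k‖ ≤ k * ‖a - b‖ := by
  induction k with
  | zero => simp
  | succ k ih =>
    have h1 : a ^ (k + 1) - b ^ (k + 1) = a ^ k * (a - b) + (a ^ k - b ^ k) * b := by ring
    rw [h1]
    refine (norm_add_le _ _).trans ?_
    rw [norm_mul, norm_mul, norm_pow]
    have h2 : ‖a‖ ^ k * ‖a - b‖ ≤ 1 * ‖a - b‖ :=
      mul_le_mul_of_nonneg_right (pow_le_one₀ (norm_nonneg _) ha) (norm_nonneg _)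
    have h3 : ‖a ^ k - b ^ k‖ * ‖b‖ ≤ (k * ‖a - b‖) * 1 :=
      mul_le_mul ih hb (norm_nonneg _) (by positivity)
    push_cast
    linarith

/-- the homogeneous form -/
noncomputable def hf (f : ℂ[X]) (r : ℕ) (u v : ℂ) : ℂ :=
  ∑ i ∈ Finset.range (r + 1), f.coeff i * u ^ i * v ^ (r - i)

theorem hf_mul (f : ℂ[X]) (r : ℕ) (hr : f.natDegree ≤ r) (c x : ℂ) :
    hf f r (c * x) c = c ^ r * f.eval x := by
  unfold hf
  rw [eval_eq_sum_range' (Nat.lt_succ_of_le hr), Finset.mul_sum]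
  refine Finset.sum_congr rfl fun i hi => ?_
  have h1 : i ≤ r := Nat.lt_succ_iff.1 (Finset.mem_range.1 hi)
  obtain ⟨t, rfl⟩ := Nat.exists_eq_add_of_le h1
  rw [Nat.add_sub_cancel_left, mul_pow, pow_add]
  ring

theorem hf_sub1 (f : ℂ[X]) (r : ℕ) (hc : ∀ i, ‖f.coeff i‖ ≤ 1) (u v w : ℂ) (hu : ‖u‖ ≤ 1)
    (hv : ‖v‖ ≤ 1) (hw : ‖w‖ ≤ 1) : ‖hf f r u v - hf f r u w‖ ≤ (r + 1) ^ 2 * ‖v - w‖ := by
  unfold hf
  rw [← Finset.sum_sub_distrib]
  refine (norm_sum_le _ _).trans ?_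
  have h : ∀ i ∈ Finset.range (r + 1),
      ‖f.coeff i * u ^ i * v ^ (r - i) - f.coeff i * u ^ i * w ^ (r - i)‖ ≤
        (r + 1) * ‖v - w‖ := by
    intro i _
    rw [← mul_sub, norm_mul, norm_mul, norm_pow]
    have h1 : ‖f.coeff i‖ * ‖u‖ ^ i ≤ 1 := mul_le_one₀ (hc i) (by positivity)
      (pow_le_one₀ (norm_nonneg _) hu)
    have h2 : ‖v ^ (r - i) - w ^ (r - i)‖ ≤ (r + 1) * ‖v - w‖ := by
      refine (pow_sub_le v w hv hw _).trans (mul_le_mul_of_nonneg_right ?_ (norm_nonneg _))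
      have : ((r - i : ℕ) : ℝ) ≤ (r : ℝ) := by exact_mod_cast Nat.sub_le r i
      linarith
    calc ‖f.coeff i‖ * ‖u‖ ^ i * ‖v ^ (r - i) - w ^ (r - i)‖
        ≤ 1 * ‖v ^ (r - i) - w ^ (r - i)‖ := mul_le_mul_of_nonneg_right h1 (norm_nonneg _)
      _ ≤ _ := by rw [one_mul]; exact h2
  refine (Finset.sum_le_sum h).trans (le_of_eq ?_)
  rw [Finset.sum_const, Finset.card_range, nsmul_eq_mul]
  push_cast
  ring

theorem hf_sub2 (f : ℂ[X]) (r : ℕ) (hc : ∀ i, ‖f.coeff i‖ ≤ 1) (u v w : ℂ) (hu : ‖u‖ ≤ 1)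
    (hv : ‖v‖ ≤ 1) (hw : ‖w‖ ≤ 1) : ‖hf f r v u - hf f r w u‖ ≤ (r + 1) ^ 2 * ‖v - w‖ := by
  unfold hf
  rw [← Finset.sum_sub_distrib]
  refine (norm_sum_le _ _).trans ?_
  have h : ∀ i ∈ Finset.range (r + 1),
      ‖f.coeff i * v ^ i * u ^ (r - i) - f.coeff i * w ^ i * u ^ (r - i)‖ ≤
        (r + 1) * ‖v - w‖ := by
    intro i hi
    have h0 : f.coeff i * v ^ i * u ^ (r - i) - f.coeff i * w ^ i * u ^ (r - i) =
        f.coeff i * u ^ (r - i) * (v ^ i - w ^ i) := by ring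
    rw [h0, norm_mul, norm_mul, norm_pow]
    have h1 : ‖f.coeff i‖ * ‖u‖ ^ (r - i) ≤ 1 := mul_le_one₀ (hc i) (by positivity)
      (pow_le_one₀ (norm_nonneg _) hu)
    have h2 : ‖v ^ i - w ^ i‖ ≤ (r + 1) * ‖v - w‖ := by
      refine (pow_sub_le v w hv hw _).trans (mul_le_mul_of_nonneg_right ?_ (norm_nonneg _))
      have h3 : i ≤ r + 1 := (Finset.mem_range.1 hi).le
      exact_mod_cast h3
    calc ‖f.coeff i‖ * ‖u‖ ^ (r - i) * ‖v ^ i - w ^ i‖
        ≤ 1 * ‖v ^ i - w ^ i‖ := mul_le_mul_of_nonneg_right h1 (norm_nonneg _)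
      _ ≤ _ := by rw [one_mul]; exact h2
  refine (Finset.sum_le_sum h).trans (le_of_eq ?_)
  rw [Finset.sum_const, Finset.card_range, nsmul_eq_mul]
  push_cast
  ring

/-- values near a zero -/
theorem near_val (f : ℂ[X]) (r : ℕ) (hr : f.natDegree ≤ r) (hc : ∀ i, ‖f.coeff i‖ ≤ 1)
    (z y : ℂ) (η : ℝ) (hz : f.eval z = 0)
    (hy : ‖z - y‖ ≤ η * (max 1 ‖z‖ * max 1 ‖y‖)) :
    ‖f.eval y‖ ≤ (r + 1) ^ 2 * η * max 1 ‖y‖ ^ r := by
  set m : ℝ := max 1 ‖y‖ with hm
  have hm1 : 1 ≤ m := le_max_left _ _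
  have hm0 : 0 < m := by linarith
  have hyn : ‖y‖ ≤ m := le_max_right _ _
  have hmc : (m : ℂ) ≠ 0 := by exact_mod_cast hm0.ne'
  set c : ℂ := (m : ℂ)⁻¹ with hcdef
  have hcn : ‖c‖ = m⁻¹ := by
    rw [hcdef, norm_inv, Complex.norm_real, Real.norm_eq_abs, abs_of_pos hm0]
  have hc1 : ‖c‖ ≤ 1 := by
    rw [hcn]
    exact inv_le_one_of_one_le₀ hm1
  have hcy : ‖c * y‖ ≤ 1 := by
    rw [norm_mul, hcn, inv_mul_le_iff₀ hm0, mul_one]
    exact hyn
  have h1 : hf f r (c * y) c = c ^ r * f.eval y := hf_mul f r hr c y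
  have hval : ‖f.eval y‖ = ‖hf f r (c * y) c‖ * m ^ r := by
    rw [h1, norm_mul, norm_pow, hcn, inv_pow]
    field_simp
  rw [hval]
  refine mul_le_mul_of_nonneg_right ?_ (by positivity)
  rcases le_or_gt ‖z‖ 1 with hz1 | hz1
  · have h2 : hf f r (c * z) c = 0 := by rw [hf_mul f r hr, hz, mul_zero]
    have hcz : ‖c * z‖ ≤ 1 := by
      rw [norm_mul]
      exact mul_le_one₀ hc1 (norm_nonneg _) hz1
    have h3 := hf_sub2 f r hc c (c * y) (c * z) hc1 hcy hcz
    rw [h2, sub_zero] at h3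
    refine h3.trans ?_
    refine mul_le_mul_of_nonneg_left ?_ (by positivity)
    rw [← mul_sub, norm_mul, hcn, norm_sub_rev, inv_mul_le_iff₀ hm0]
    rw [max_eq_left hz1, one_mul] at hy
    linarith
  · have hz0 : z ≠ 0 := by
      rintro rfl
      rw [norm_zero] at hz1
      linarith
    have hzn : 0 < ‖z‖ := by linarith
    have h2 : hf f r (c * y) (c * y / z) = 0 := by
      have h3 := hf_mul f r hr (c * y / z) z
      have h4 : c * y / z * z = c * y := by field_simp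
      rwa [hz, mul_zero, h4] at h3
    have h4 : ‖c * y / z‖ ≤ 1 := by
      rw [norm_div, div_le_one hzn]
      linarith
    have h3 := hf_sub1 f r hc (c * y) c (c * y / z) hcy hc1 h4
    rw [h2, sub_zero] at h3
    refine h3.trans ?_
    refine mul_le_mul_of_nonneg_left ?_ (by positivity)
    have h5 : c - c * y / z = c * (z - y) / z := by field_simp
    rw [h5, norm_div, norm_mul, hcn, div_le_iff₀ hzn, inv_mul_le_iff₀ hm0]
    rw [max_eq_right hz1.le] at hy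
    linarith

/-- the leading coefficient is small if there is a large zero -/
theorem near_inf (f : ℂ[X]) (r : ℕ) (hr : f.natDegree ≤ r) (hc : ∀ i, ‖f.coeff i‖ ≤ 1)
    (z : ℂ) (η : ℝ) (hη : 0 < η) (hz : f.eval z = 0) (h : 1 ≤ η * max 1 ‖z‖) :
    ‖f.coeff r‖ ≤ (r + 1) ^ 2 * η := by
  have hr1 : (1 : ℝ) ≤ (r + 1) ^ 2 := by
    have : (0 : ℝ) ≤ r := by positivity
    nlinarith
  rcases le_or_gt ‖z‖ 1 with hz1 | hz1
  · rw [max_eq_left hz1, mul_one] at h
    calc ‖f.coeff r‖ ≤ 1 := hc r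
      _ ≤ 1 * η := by rw [one_mul]; exact h
      _ ≤ _ := mul_le_mul_of_nonneg_right hr1 hη.le
  · rw [max_eq_right hz1.le] at h
    have hzn : 0 < ‖z‖ := by linarith
    have h1 := hz
    rw [eval_eq_sum_range' (Nat.lt_succ_of_le hr), Finset.sum_range_succ] at h1
    have h2 : f.coeff r * z ^ r = -∑ i ∈ Finset.range r, f.coeff i * z ^ i := by
      linear_combination h1
    have h3 : ‖f.coeff r‖ * ‖z‖ ^ r ≤ ∑ i ∈ Finset.range r, ‖z‖ ^ i := by
      rw [← norm_pow, ← norm_mul, h2, norm_neg]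
      refine (norm_sum_le _ _).trans (Finset.sum_le_sum fun i _ => ?_)
      rw [norm_mul, norm_pow]
      exact mul_le_of_le_one_left (by positivity) (hc i)
    have h4 : (∑ i ∈ Finset.range r, ‖z‖ ^ i) * ‖z‖ ≤ r * ‖z‖ ^ r := by
      rw [Finset.sum_mul]
      refine (Finset.sum_le_sum (g := fun _ => ‖z‖ ^ r) fun i hi => ?_).trans (le_of_eq ?_)
      · rw [← pow_succ]
        exact pow_le_pow_right₀ hz1.le (Finset.mem_range.1 hi)
      · rw [Finset.sum_const, Finset.card_range, nsmul_eq_mul]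
    have h5 : ‖f.coeff r‖ * ‖z‖ ≤ r := by
      have h6 : (‖f.coeff r‖ * ‖z‖) * ‖z‖ ^ r ≤ r * ‖z‖ ^ r := by
        calc (‖f.coeff r‖ * ‖z‖) * ‖z‖ ^ r = (‖f.coeff r‖ * ‖z‖ ^ r) * ‖z‖ := by ring
          _ ≤ (∑ i ∈ Finset.range r, ‖z‖ ^ i) * ‖z‖ :=
              mul_le_mul_of_nonneg_right h3 (norm_nonneg _)
          _ ≤ _ := h4
      exact le_of_mul_le_mul_right h6 (by positivity)
    have h7 : (r : ℝ) ≤ (r + 1) ^ 2 := by
      have : (0 : ℝ) ≤ r := by positivity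
      nlinarith
    calc ‖f.coeff r‖ = ‖f.coeff r‖ * 1 := (mul_one _).symm
      _ ≤ ‖f.coeff r‖ * (η * ‖z‖) := mul_le_mul_of_nonneg_left h (norm_nonneg _)
      _ = (‖f.coeff r‖ * ‖z‖) * η := by ring
      _ ≤ r * η := mul_le_mul_of_nonneg_right h5 hη.le
      _ ≤ _ := mul_le_mul_of_nonneg_right h7 hη.le

/-- **PC/ROOT** -/
theorem t : StmRoot := by
  intro q r
  refine ⟨2 * (r + 1) ^ 2, by positivity, fun h f z δ hh hf hz hδ hfc hhc hhz => ?_⟩
  have hq1 : (0 : ℝ) < (q : ℝ) + 1 := by positivity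
  rcases le_or_gt 1 δ with hδ1 | hδ1
  · right
    have h1 : (1 : ℝ) ≤ δ ^ (1 / ((q : ℝ) + 1)) := Real.one_le_rpow hδ1 (by positivity)
    have h2 : (1 : ℝ) ≤ 2 * (r + 1) ^ 2 := by
      have : (0 : ℝ) ≤ r := by positivity
      nlinarith
    calc ‖f.coeff r‖ ≤ 1 := hfc r
      _ ≤ _ := one_le_mul_of_one_le_of_one_le h2 h1
  · set η : ℝ := 2 * δ ^ (1 / ((q : ℝ) + 1)) with hη
    have hη0 : 0 < η := by positivity
    have hηδ : 2 ^ q * δ < η ^ q := by
      rw [hη, mul_pow, ← Real.rpow_natCast (δ ^ (1 / ((q : ℝ) + 1))) q, ← Real.rpow_mul hδ.le]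
      refine mul_lt_mul_of_pos_left ?_ (by positivity)
      conv_lhs => rw [← Real.rpow_one δ]
      refine Real.rpow_lt_rpow_of_exponent_gt hδ hδ1 ?_
      rw [one_div, inv_mul_lt_iff₀ hq1]
      linarith
    rcases near_zero q h z δ η hh hη0 hhc hhz hηδ hδ with ⟨y, hy, hzy⟩ | h1
    · left
      refine ⟨y, hy, (near_val f r hf hfc z y η hz hzy).trans (le_of_eq ?_)⟩
      rw [hη]
      ring
    · right
      refine (near_inf f r hf hfc z η hη0 hz h1).trans (le_of_eq ?_)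
      rw [hη]
      ring

end Pool.Agent.N130.PC.Root
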